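import Mathlib
import Pool.Agent.Run7.h884.Main

open scoped ComplexOrder
open Run7.h884

/-- Let `(A, τ)` be a tracial C*-probability space generated, in the `L²` sense, by a free
semicircular family `X`. If `Y` and `Y'` are Lipschitz elements of the monotone cone, both are
invertible in the Sobolev sense (`X` is a `W^{1,2}` function of each of them), and they have the
same law (an arbitrary one), then `Y = Y'`. -/
theorem Pool.Agent.Results.MP_eee45d_an.InvertibleUniqueness.result
    {A : Type*} [CStarAlgebra A] [PartialOrder A] [StarOrderedRing A]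
    {n : ℕ} (τ : A →ₚ[ℂ] ℂ) (hτ : IsFaithfulTracialState τ)
    (X : Fin n → A) (hX : IsFreeSemicircular τ X) (hgen : Generates τ X)
    (Y Y' : Fin n → A)
    (hY : LipschitzMonotone τ X Y) (hY' : LipschitzMonotone τ X Y')
    (hI : SobolevInvertible τ X Y) (hI' : SobolevInvertible τ X Y')
    (hlaw : SameLaw τ Y Y') : Y = Y' :=
  main τ hτ X hX hgen Y Y' hY hY' hI hI' hlaw
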